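import Pool.Agent.Lib.BP70.Motion

set_option autoImplicit false

open Pool.Agent.Lib.MP_ab14aa_co Pool.Agent.Lib.BP70

namespace Pool.Agent.Results.MP_ab14aa_co.GloballyRigid

/-- There is a braced polygon graph (it contains the Hamiltonian cycle `0, 1, …, n-1, 0`) that is
3-connected, generically rigid and even generically globally rigid in the plane, and that has a
flexible strictly convex configuration. -/
theorem result : ∃ (n : ℕ) (G : SimpleGraph (Fin n)), 4 ≤ n ∧ SimpleGraph.cycleGraph n ≤ G ∧
    (∀ a b : Fin n, (G.induce ({a, b} : Set (Fin n))ᶜ).Connected) ∧ GenericallyRigid G ∧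
    GenericallyGloballyRigid G ∧ ∃ p : Fin n → Plane, StrictlyConvex p ∧ Flexible G p := by
  refine ⟨14, G14, by norm_num, cyc_le, three_conn14, ?_, globally_rigid, cf y0, cf_convex,
    cf_flexible⟩
  rintro p hp ⟨q, -, -, hlen, t, ht⟩
  exact ht (globally_rigid p hp (q t) (hlen t))

end Pool.Agent.Results.MP_ab14aa_co.GloballyRigid
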